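import Pool.Agent.V11250.DownFO

/-!
# MP_bbe6b0_lc: no first order sentence defines the finite down-posets

For every first order sentence `φ` in the language with one binary relation symbol there is a
finite poset `P` in which `φ` holds exactly when `P` is not a down-poset.
-/

set_option autoImplicit false

namespace Pool.Agent.Results.MP_bbe6b0_lc.NotDefinable

open FirstOrder FirstOrder.Language Pool.Agent.V11250.DownDefs Pool.Agent.V11250.DownPoset

/-- For every first order sentence `φ` in the language of posets there is a finite poset `P` such
that `φ` holds in `P` if and only if `P` is not a down-poset. In particular no first order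
sentence defines the finite down-posets among the finite posets. -/
theorem result (φ : LP.Sentence) :
    ∃ (P : Type) (_ : PartialOrder P), Finite P ∧ (P ⊨ φ ↔ ¬ IsDownPoset P) := by
  obtain ⟨K, N, h⟩ := fo φ
  have hA := DA_good (K + N + 2) N (by omega)
  have hB := DB_good (K + N + 2) N (by omega)
  have heq : Pt (DA (K + N + 2)) ⊨ φ ↔ Pt (DB (K + N + 2)) ⊨ φ :=
    h _ _ hA hB default default (fun i => i.elim0) (AB_pat _ K (by omega) _ _)
  have h1 := DA_not (K + N + 2) (by omega)
  have h2 := DB_down (K + N + 2) (by omega)
  by_cases hφ : Pt (DA (K + N + 2)) ⊨ φ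
  · exact ⟨Pt (DA (K + N + 2)), inferInstance, inferInstance, iff_of_true hφ h1⟩
  · exact ⟨Pt (DB (K + N + 2)), inferInstance, inferInstance,
      iff_of_false (fun h3 => hφ (heq.2 h3)) (fun h3 => h3 h2)⟩

end Pool.Agent.Results.MP_bbe6b0_lc.NotDefinable
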